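import Pool.Agent.TH192.MU.TDefs
import Pool.Agent.X159.TZ.RDefs
import Pool.Agent.W574.SM.Defs

set_option autoImplicit false

/-! # Ideals: the property of the topological zeta function and the functional equations -/

namespace Pool.Agent.X159.QI

open Pool.Agent.W428.MOT Pool.Agent.TH192.MU Pool.Agent.W574.SM

/-- The property `P` of the topological zeta function of the ideal `(f_j)` and of all polynomials which
satisfy a functional equation of the `f_j`, as in the definition of the Bernstein-Sato polynomial of an
ideal -/
def IdP {R : Type} [CommRing R] (E : MK ℂ →+* R) (ε : R →+* ℂ)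
    (P : RatFunc ℂ → Polynomial ℂ → Prop) {σ ι : Type} [Fintype σ] [Fintype ι]
    (f : ι → MvPolynomial σ ℂ) : Prop :=
  ∀ Z : RatFunc ℂ, IsTopZeta E ε (zetaId f) Z → ∀ b : Polynomial ℂ, IsFunctionalEq f b → P Z b

end Pool.Agent.X159.QI
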