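import Pool.Agent.X159.QI.Jets

set_option autoImplicit false
set_option linter.unusedSectionVars false

/-! # One more variable: the classes of the sets of jets -/

namespace Pool.Agent.X159.QI

open MvPolynomial Pool.Agent.W428.MOT Pool.Agent.TH192.MT

section ext
variable {K : Type} [Field K] {σ J : Type}

/-- the family `f, u` -/
noncomputable def ex (f : J → MvPolynomial σ K) : Option J → MvPolynomial (Option σ) K
  | some j => rename some (f j)
  | none => X none

/-- the conditions on the origin -/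
def Wx (W : Set (Pt K σ)) (A : Set (AlgebraicClosure K)) : Set (Pt K (Option σ)) :=
  {w | (fun i => w (some i)) ∈ W ∧ w none ∈ A}

theorem constr_one {ι : Type} {A : Set (AlgebraicClosure K)}
    (hA : Constr {z : Pt K (Fin 1) | z 0 ∈ A}) {F : Pt K ι → AlgebraicClosure K} (hF : IsPF F) :
    Constr {z : Pt K ι | F z ∈ A} :=
  hA.preimage (fun z _ => F z) fun _ => hF

theorem constr_Wx {W : Set (Pt K σ)} {A : Set (AlgebraicClosure K)} (hW : Constr W)
    (hA : Constr {z : Pt K (Fin 1) | z 0 ∈ A}) : Constr (Wx W A) :=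
  (hW.preimage _ fun i => IsPF.coord _).and (constr_one hA (IsPF.coord none))

theorem aeval_some {N : ℕ} (z : Pt K (Option σ × Fin (N + 1))) (p : MvPolynomial σ K) :
    aeval (ar z) (rename some p) = aeval (ar fun q : σ × Fin (N + 1) => z (some q.1, q.2)) p := by
  rw [aeval_rename]
  rfl

variable {R : Type} [CommRing R] [Fintype σ] [Finite J]

theorem chi_ex1 (M : Meas K R) (f : J → MvPolynomial σ K) {W : Set (Pt K σ)} (hW : Constr W)
    {A : Set (AlgebraicClosure K)} (hA : Constr {z : Pt K (Fin 1) | z 0 ∈ A}) (h0 : 0 ∈ A)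
    (N : ℕ) : M.χ _ (TF (ex f) (Wx W A) (N + 1) N) = M.χ _ (TF f W (N + 1) N) := by
  refine M.iso _ _ (constr_TF _ (constr_Wx hW hA) _ _) (constr_TF _ hW _ _)
    (fun z q => z (some q.1, q.2))
    (fun z q => match q.1 with
      | some i => z (i, q.2)
      | none => 0)
    (regularOn_poly (fun q => IsPF.coord _) _) (regularOn_poly ?_ _) ?_ ?_ ?_ ?_
  · rintro ⟨_ | i, k⟩
    · exact IsPF.zero
    · exact IsPF.coord _
  · rintro z ⟨⟨h1, -⟩, h2⟩
    refine ⟨h1, fun j k hk => ?_⟩
    have := h2 (some j) k hk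
    simp only [ex] at this
    rwa [aeval_some] at this
  · rintro z ⟨h1, h2⟩
    refine ⟨⟨h1, h0⟩, fun o k hk => ?_⟩
    rcases o with _ | j
    · simp only [ex]
      rw [aeval_X, coeff_ar _ _ _ hk]
    · simp only [ex]
      rw [aeval_some]
      exact h2 j k hk
  · rintro z ⟨-, h2⟩
    funext q
    rcases q with ⟨_ | i, k⟩
    · have := h2 none k k.2
      simp only [ex] at this
      rw [aeval_X, coeff_ar _ _ _ k.2] at this
      exact this.symm
    · rfl
  · rintro z -
    rfl

/-- the last coefficient of the new variable -/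
def AN (A : Set (AlgebraicClosure K)) (N : ℕ) : Set (AlgebraicClosure K) :=
  if N = 0 then A else Set.univ

theorem constr_AN {A : Set (AlgebraicClosure K)} (hA : Constr {z : Pt K (Fin 1) | z 0 ∈ A})
    (N : ℕ) : Constr {z : Pt K (Fin 1) | z 0 ∈ AN A N} := by
  unfold AN
  split_ifs
  · exact hA
  · simpa using Constr.univ (K := K) (ι := Fin 1)

theorem chi_ex2 (M : Meas K R) (f : J → MvPolynomial σ K) {W : Set (Pt K σ)} (hW : Constr W)
    {A : Set (AlgebraicClosure K)} (hA : Constr {z : Pt K (Fin 1) | z 0 ∈ A}) (h0 : 0 ∈ A)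
    (N : ℕ) : M.χ _ (TF (ex f) (Wx W A) N N) =
      M.χ _ (TF f W N N) * M.χ (Fin 1) {z | z 0 ∈ AN A N} := by
  classical
  rw [← M.prod _ _ (constr_TF f hW N N) (constr_AN hA N)]
  refine M.iso _ _ (constr_TF _ (constr_Wx hW hA) _ _)
    (((constr_TF f hW N N).preimage _ fun i => IsPF.coord _).and
      ((constr_AN hA N).preimage _ fun i => IsPF.coord _))
    (fun z q => match q with
      | Sum.inl q => z (some q.1, q.2)
      | Sum.inr _ => z (none, Fin.last N))
    (fun z q => match q.1 with
      | some i => z (Sum.inl (i, q.2))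
      | none => if q.2 = Fin.last N then z (Sum.inr 0) else 0)
    (regularOn_poly ?_ _) (regularOn_poly ?_ _) ?_ ?_ ?_ ?_
  · rintro (q | q)
    · exact IsPF.coord _
    · exact IsPF.coord _
  · rintro ⟨_ | i, k⟩
    · by_cases h : k = Fin.last N
      · simp only [h, if_true]
        exact IsPF.coord _
      · simp only [h, if_false]
        exact IsPF.zero
    · exact IsPF.coord _
  · rintro z ⟨⟨h1, h3⟩, h2⟩
    refine ⟨⟨h1, fun j k hk => ?_⟩, ?_⟩
    · have := h2 (some j) k hk
      simp only [ex] at this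
      rwa [aeval_some] at this
    · show z (none, Fin.last N) ∈ AN A N
      unfold AN
      split_ifs with hN
      · subst hN
        exact h3
      · exact Set.mem_univ _
  · rintro z ⟨⟨h1, h2⟩, h3⟩
    refine ⟨⟨h1, ?_⟩, fun o k hk => ?_⟩
    · show (if (0 : Fin (N + 1)) = Fin.last N then z (Sum.inr 0) else 0) ∈ A
      split_ifs with hN
      · have h4 : N = 0 := by
          have := congrArg Fin.val hN
          simpa using this.symm
        have h5 : z (Sum.inr 0) ∈ AN A N := h3
        rwa [AN, if_pos h4] at h5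
      · exact h0
    · rcases o with _ | j
      · simp only [ex]
        rw [aeval_X, coeff_ar _ _ _ (by omega)]
        show (if _ then _ else _) = _
        rw [if_neg]
        intro h
        have := congrArg Fin.val h
        simp only [Fin.val_last] at this
        omega
      · simp only [ex]
        rw [aeval_some]
        exact h2 j k hk
  · rintro z ⟨-, h2⟩
    funext q
    rcases q with ⟨_ | i, k⟩
    · show (if k = Fin.last N then _ else _) = _
      split_ifs with hk
      · rw [hk]
      · have h3 : (k : ℕ) < N := by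
          have h4 : (k : ℕ) ≠ N := fun h => hk (Fin.ext (by rw [h, Fin.val_last]))
          have := k.2
          omega
        have := h2 none k h3
        simp only [ex] at this
        rw [aeval_X, coeff_ar _ _ _ k.2] at this
        exact this.symm
    · rfl
  · rintro z -
    funext q
    rcases q with q | q
    · rfl
    · show (if Fin.last N = Fin.last N then z (Sum.inr 0) else 0) = _
      rw [if_pos rfl, Subsingleton.elim q 0]

/-! ### The family with `u - g` -/

/-- the conditions on the origin -/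
def Wg (W : Set (Pt K σ)) (A : Set (AlgebraicClosure K)) (g : MvPolynomial σ K) :
    Set (Pt K (Option σ)) :=
  {w | (fun i => w (some i)) ∈ W ∧ w none - aeval (fun i => w (some i)) g ∈ A}

theorem isPF_aeval {τ : Type} (φ : σ → Pt K τ → AlgebraicClosure K) (h : ∀ i, IsPF (φ i))
    (g : MvPolynomial σ K) : IsPF (fun z => aeval (fun i => φ i z) g) :=
  (IsPF.poly g).comp (fun z i => φ i z) h

theorem constr_Wg {W : Set (Pt K σ)} {A : Set (AlgebraicClosure K)} (hW : Constr W)
    (hA : Constr {z : Pt K (Fin 1) | z 0 ∈ A}) (g : MvPolynomial σ K) : Constr (Wg W A g) :=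
  (hW.preimage _ fun i => IsPF.coord _).and
    (constr_one hA ((IsPF.coord none).sub (isPF_aeval _ (fun i => IsPF.coord (some i)) g)))

/-- the change of the variable `u`, on jets -/
noncomputable def mv {N : ℕ} (g : MvPolynomial σ K) (s : AlgebraicClosure K)
    (z : Pt K (Option σ × Fin (N + 1))) : Pt K (Option σ × Fin (N + 1)) :=
  fun q => match q.1 with
    | some i => z (some i, q.2)
    | none => z (none, q.2) + s * PowerSeries.coeff (q.2 : ℕ)
        (aeval (ar fun q : σ × Fin (N + 1) => z (some q.1, q.2)) g)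

theorem isPF_mv {N : ℕ} (g : MvPolynomial σ K) (s : K) (q : Option σ × Fin (N + 1)) :
    IsPF fun z : Pt K (Option σ × Fin (N + 1)) => mv g (algebraMap K _ s) z q := by
  rcases q with ⟨_ | i, k⟩
  · refine (IsPF.coord _).add ((IsPF.const s).mul ?_)
    have h1 : ∀ i : σ, IsPA fun z : Pt K (Option σ × Fin (N + 1)) => ar z (some i) :=
      fun i => isPA_ar (some i)
    exact isPA_aeval (fun i z => ar z (some i)) h1 g k
  · exact IsPF.coord _

theorem mv_some {N : ℕ} (g : MvPolynomial σ K) (s : AlgebraicClosure K)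
    (z : Pt K (Option σ × Fin (N + 1))) :
    (fun q : σ × Fin (N + 1) => mv g s z (some q.1, q.2)) =
      fun q : σ × Fin (N + 1) => z (some q.1, q.2) := rfl

theorem mv_mv {N : ℕ} (g : MvPolynomial σ K) (s t : AlgebraicClosure K) (hst : s + t = 0)
    (z : Pt K (Option σ × Fin (N + 1))) : mv g s (mv g t z) = z := by
  funext q
  rcases q with ⟨_ | i, k⟩
  · show mv g t z (none, k) + s * PowerSeries.coeff (k : ℕ)
        (aeval (ar fun q : σ × Fin (N + 1) => mv g t z (some q.1, q.2)) g) = _
    rw [mv_some]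
    show z (none, k) + t * _ + s * _ = _
    linear_combination (PowerSeries.coeff (k : ℕ)
        (aeval (ar fun q : σ × Fin (N + 1) => z (some q.1, q.2)) g)) * hst
  · rfl

theorem coeff_zero_aeval (γ : σ → PowerSeries (AlgebraicClosure K)) (g : MvPolynomial σ K) :
    PowerSeries.coeff 0 (aeval γ g) = aeval (fun i => PowerSeries.coeff 0 (γ i)) g := by
  induction g using MvPolynomial.induction_on with
  | C a =>
    simp only [MvPolynomial.algHom_C, PowerSeries.algebraMap_apply, PowerSeries.coeff_zero_C]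
  | add p q hp hq => simp only [map_add, hp, hq]
  | mul_X p i hp =>
    simp only [map_mul, aeval_X, PowerSeries.coeff_zero_eq_constantCoeff] at hp ⊢
    rw [hp]

theorem dvd_iff {φ : PowerSeries (AlgebraicClosure K)} {i : ℕ} :
    (∀ k < i, PowerSeries.coeff k φ = 0) ↔ PowerSeries.X ^ i ∣ φ :=
  PowerSeries.X_pow_dvd_iff.symm

theorem mem_nf [DecidableEq J] (f : J → MvPolynomial σ K) (j : J) (a g : MvPolynomial σ K)
    (W : Set (Pt K σ)) (A : Set (AlgebraicClosure K)) (i N : ℕ) (hi : i ≤ N + 1)
    (z : Pt K (Option σ × Fin (N + 1))) :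
    z ∈ TF (nf f j a g) (Wg W A g) i N ↔ mv g (-1) z ∈ TF (ex f) (Wx W A) i N := by
  have hW : (fun i => z (i, 0)) ∈ Wg W A g ↔ (fun i => mv g (-1) z (i, 0)) ∈ Wx W A := by
    show _ ∧ _ ↔ _ ∧ _
    refine and_congr Iff.rfl ?_
    have h1 : mv g (-1) z (none, 0) = z (none, 0) - aeval (fun i => z (some i, 0)) g := by
      show z (none, 0) + -1 * PowerSeries.coeff 0 _ = _
      rw [coeff_zero_aeval]
      have h2 : (fun i : σ => PowerSeries.coeff 0 (ar (fun q : σ × Fin (N + 1) =>
          z (some q.1, q.2)) i)) = fun i => z (some i, 0) := by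
        funext i
        rw [coeff_ar _ _ _ (Nat.succ_pos N)]
        rfl
      rw [h2]
      ring
    show z (none, 0) - aeval (fun i => z (some i, 0)) g ∈ A ↔ mv g (-1) z (none, 0) ∈ A
    rw [h1]
  have hs : ∀ p : MvPolynomial σ K, aeval (ar (mv g (-1) z)) (rename some p) =
      aeval (ar z) (rename some p) := by
    intro p
    rw [aeval_some, aeval_some, mv_some]
  have hu : (∀ k < i, PowerSeries.coeff k (aeval (ar (mv g (-1) z)) (X none : MvPolynomial
      (Option σ) K)) = 0) ↔ PowerSeries.X ^ i ∣ aeval (ar z) (X none - rename some g) := by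
    rw [← dvd_iff]
    refine forall_congr' fun k => forall_congr' fun hk => ?_
    have h1 : PowerSeries.coeff k (aeval (ar (mv g (-1) z)) (X none : MvPolynomial
        (Option σ) K)) = PowerSeries.coeff k (aeval (ar z) (X none - rename some g)) := by
      rw [aeval_X, map_sub, aeval_X, map_sub, coeff_ar _ _ _ (by omega : k < N + 1),
        coeff_ar _ _ _ (by omega : k < N + 1), aeval_some]
      show z (none, _) + -1 * _ = _
      ring
    rw [h1]
  constructor
  · rintro ⟨h1, h2⟩
    have h3 : PowerSeries.X ^ i ∣ aeval (ar z) (X none - rename some g) := by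
      rw [← dvd_iff]
      exact h2 none
    refine ⟨hW.1 h1, fun o => ?_⟩
    rcases o with _ | l
    · exact hu.2 h3
    · have h4 := h2 (some l)
      rw [dvd_iff] at h4 ⊢
      simp only [ex]
      rw [hs]
      simp only [nf, map_add] at h4
      refine (dvd_add_left ?_).1 h4
      split_ifs with hl
      · rw [map_mul]
        exact Dvd.dvd.mul_left h3 _
      · rw [map_zero]
        exact dvd_zero _
  · rintro ⟨h1, h2⟩
    have h3 : PowerSeries.X ^ i ∣ aeval (ar z) (X none - rename some g) := hu.1 (h2 none)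
    refine ⟨hW.2 h1, fun o => ?_⟩
    rcases o with _ | l
    · rw [dvd_iff]
      exact h3
    · have h4 := h2 (some l)
      rw [dvd_iff] at h4 ⊢
      simp only [ex] at h4
      rw [hs] at h4
      simp only [nf, map_add]
      refine dvd_add h4 ?_
      split_ifs with hl
      · rw [map_mul]
        exact Dvd.dvd.mul_left h3 _
      · rw [map_zero]
        exact dvd_zero _

theorem chi_nf [DecidableEq J] (M : Meas K R) (f : J → MvPolynomial σ K) (j : J)
    (a g : MvPolynomial σ K) {W : Set (Pt K σ)} (hW : Constr W) {A : Set (AlgebraicClosure K)}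
    (hA : Constr {z : Pt K (Fin 1) | z 0 ∈ A}) (i N : ℕ) (hi : i ≤ N + 1) :
    M.χ _ (TF (nf f j a g) (Wg W A g) i N) = M.χ _ (TF (ex f) (Wx W A) i N) := by
  have e1 : (algebraMap K (AlgebraicClosure K) (-1)) = -1 := by rw [map_neg, map_one]
  have e2 : (algebraMap K (AlgebraicClosure K) 1) = 1 := map_one _
  refine M.iso _ _ (constr_TF _ (constr_Wg hW hA g) _ _) (constr_TF _ (constr_Wx hW hA) _ _)
    (mv g (algebraMap K _ (-1))) (mv g (algebraMap K _ 1))
    (regularOn_poly (fun q => isPF_mv g _ q) _) (regularOn_poly (fun q => isPF_mv g _ q) _)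
    ?_ ?_ ?_ ?_
  · intro z hz
    rw [e1]
    exact (mem_nf f j a g W A i N hi z).1 hz
  · intro z hz
    rw [e2]
    refine (mem_nf f j a g W A i N hi _).2 ?_
    rw [mv_mv g _ _ (by ring)]
    exact hz
  · intro z _
    rw [e1, e2]
    exact mv_mv g _ _ (by ring) z
  · intro z _
    rw [e1, e2]
    exact mv_mv g _ _ (by ring) z

/-! ### The relation -/

/-- the zeta function of the family -/
noncomputable def zI {σ J : Type} [Fintype σ] (M : Meas K R) (Y : R) (f : J → MvPolynomial σ K)
    (W : Set (Pt K σ)) : PowerSeries R :=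
  PowerSeries.mk fun N => M.χ _ (JetF f W N) * Y ^ (Fintype.card σ * N)

/-- the tails -/
noncomputable def ph (M : Meas K R) (Y : R) (f : J → MvPolynomial σ K) (W : Set (Pt K σ)) (N : ℕ) :
    R := M.χ _ (TF f W N N) * Y ^ (Fintype.card σ * N)

theorem pow_c {L Y : R} (h : L * Y = 1) (c N : ℕ) : L ^ c * Y ^ (c * (N + 1)) = Y ^ (c * N) := by
  rw [mul_add, mul_one, pow_add, mul_comm (Y ^ (c * N)), ← mul_assoc, ← mul_pow, h, one_pow,
    one_mul]

theorem ph_succ (M : Meas K R) (Y : R) (hL : M.L * Y = 1) (f : J → MvPolynomial σ K)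
    {W : Set (Pt K σ)} (hW : Constr W) (N : ℕ) :
    ph M Y f W (N + 1) = M.χ _ (TF f W (N + 1) N) * Y ^ (Fintype.card σ * N) := by
  rw [ph, tf_two M f hW (N + 1) N le_rfl, mul_assoc, pow_c hL]

theorem zI_coeff (M : Meas K R) (Y : R) (hL : M.L * Y = 1) (f : J → MvPolynomial σ K)
    {W : Set (Pt K σ)} (hW : Constr W) (N : ℕ) :
    PowerSeries.coeff N (zI M Y f W) = ph M Y f W N - ph M Y f W (N + 1) := by
  rw [zI, PowerSeries.coeff_mk, ph_succ M Y hL f hW, ph, chi_JetF M f hW]
  ring

theorem zI_ex (M : Meas K R) (Y : R) (hL : M.L * Y = 1) (f : J → MvPolynomial σ K)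
    {W : Set (Pt K σ)} (hW : Constr W) {A : Set (AlgebraicClosure K)}
    (hA : Constr {z : Pt K (Fin 1) | z 0 ∈ A}) (h0 : 0 ∈ A) [DecidableEq J] (j : J)
    (a g : MvPolynomial σ K) (N : ℕ) :
    M.L ^ N * PowerSeries.coeff N (zI M Y (nf f j a g) (Wg W A g)) =
      ph M Y f W N * M.χ (Fin 1) {z | z 0 ∈ AN A N} - ph M Y f W (N + 1) := by
  rw [zI, PowerSeries.coeff_mk, chi_JetF M _ (constr_Wg hW hA g),
    chi_nf M f j a g hW hA N N (by omega), chi_nf M f j a g hW hA (N + 1) N le_rfl,
    chi_ex2 M f hW hA h0, chi_ex1 M f hW hA h0, ph_succ M Y hL f hW, ph]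
  have h1 : M.L ^ N * Y ^ (Fintype.card (Option σ) * N) = Y ^ (Fintype.card σ * N) := by
    rw [Fintype.card_option, add_mul, one_mul, pow_add, mul_comm (Y ^ (Fintype.card σ * N)),
      ← mul_assoc, ← mul_pow, hL, one_pow, one_mul]
  linear_combination (M.χ _ (TF f W N N) * M.χ (Fin 1) {z | z 0 ∈ AN A N} -
    M.χ _ (TF f W (N + 1) N)) * h1

/-- **The relation.** -/
theorem rel_nf (M : Meas K R) (Y : R) (hL : M.L * Y = 1) (f : J → MvPolynomial σ K)
    {W : Set (Pt K σ)} (hW : Constr W) {A : Set (AlgebraicClosure K)}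
    (hA : Constr {z : Pt K (Fin 1) | z 0 ∈ A}) (h0 : 0 ∈ A) [DecidableEq J] (j : J)
    (a g : MvPolynomial σ K) :
    (1 - PowerSeries.X) * PowerSeries.rescale M.L (zI M Y (nf f j a g) (Wg W A g)) =
      (1 - PowerSeries.C M.L * PowerSeries.X) * zI M Y f W +
        PowerSeries.C (ph M Y f W 0) * (PowerSeries.C (M.χ (Fin 1) {z | z 0 ∈ A} - 1) +
          PowerSeries.C (M.L - M.χ (Fin 1) {z | z 0 ∈ A}) * PowerSeries.X) := by
  have hr := zI_ex M Y hL f hW hA h0 j a g
  have hz := zI_coeff M Y hL f hW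
  have hU : M.χ (Fin 1) {z : Pt K (Fin 1) | z 0 ∈ (Set.univ : Set (AlgebraicClosure K))} =
      M.L := by
    unfold Meas.L
    congr 1
  ext N
  rw [sub_mul, sub_mul, one_mul, one_mul, mul_add, mul_assoc (PowerSeries.C M.L),
    ← mul_assoc (PowerSeries.C (ph M Y f W 0)), map_sub, map_add, map_sub, map_add,
    PowerSeries.coeff_rescale, PowerSeries.coeff_C_mul N _ M.L, hr, hz, ← map_mul PowerSeries.C,
    ← map_mul PowerSeries.C, PowerSeries.coeff_C]
  rcases N with _ | _ | N
  · rw [PowerSeries.coeff_zero_X_mul, PowerSeries.coeff_zero_X_mul, PowerSeries.coeff_zero_mul_X,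
      if_pos rfl, AN, if_pos rfl]
    ring
  · rw [PowerSeries.coeff_succ_X_mul, PowerSeries.coeff_succ_X_mul, PowerSeries.coeff_succ_mul_X,
      PowerSeries.coeff_rescale, hr, hz, PowerSeries.coeff_C, if_neg (by omega), if_pos rfl, AN,
      if_neg (by omega), hU, AN, if_pos rfl]
    ring
  · rw [PowerSeries.coeff_succ_X_mul, PowerSeries.coeff_succ_X_mul, PowerSeries.coeff_succ_mul_X,
      PowerSeries.coeff_rescale, hr, hz, PowerSeries.coeff_C, if_neg (by omega), if_neg (by omega),
      AN, if_neg (by omega), AN, if_neg (by omega), hU]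
    ring

end ext

end Pool.Agent.X159.QI
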