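import Pool.Agent.X159.QI.Step
import Pool.Agent.TH192.MU.TDefs
import Pool.Agent.W417.MT.Free

set_option autoImplicit false
set_option linter.unusedSectionVars false

/-! # Jets on which an ideal has a given order: one more variable -/

namespace Pool.Agent.X159.QI

open MvPolynomial Pool.Agent.W428.MOT Pool.Agent.TH192.MT

section basic
variable {K : Type} [Field K] {σ J : Type}

/-- the jets on which the order is at least `i` -/
def TF (f : J → MvPolynomial σ K) (W : Set (Pt K σ)) (i N : ℕ) : Set (Pt K (σ × Fin (N + 1))) :=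
  {z | (fun i => z (i, 0)) ∈ W ∧ ∀ j, ∀ k < i, PowerSeries.coeff k (aeval (ar z) (f j)) = 0}

theorem coeff_ar {N : ℕ} (z : Pt K (σ × Fin (N + 1))) (i : σ) (j : ℕ) (h : j < N + 1) :
    PowerSeries.coeff j (ar z i) = z (i, ⟨j, h⟩) := by
  rw [ar, PowerSeries.coeff_mk, dif_pos h]

theorem isPA_ar {N : ℕ} (i : σ) : IsPA (fun z : Pt K (σ × Fin (N + 1)) => ar z i) := by
  intro j
  simp only [ar, PowerSeries.coeff_mk]
  split_ifs with h
  · exact IsPF.coord _
  · exact IsPF.zero

theorem isPA_aeval {τ : Type} (γ : σ → Pt K τ → PowerSeries (AlgebraicClosure K))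
    (h : ∀ i, IsPA (γ i)) (f : MvPolynomial σ K) :
    IsPA (fun z => aeval (fun i => γ i z) f) := by
  induction f using MvPolynomial.induction_on with
  | C a =>
    simp only [MvPolynomial.algHom_C, PowerSeries.algebraMap_apply]
    exact IsPA.C (IsPF.const a)
  | add p q hp hq =>
    simp only [map_add]
    exact hp.add hq
  | mul_X p i hp =>
    simp only [map_mul, MvPolynomial.aeval_X]
    exact hp.mul (h i)

theorem coeff_congr (f : MvPolynomial σ K) (q : ℕ) (γ δ : σ → PowerSeries (AlgebraicClosure K))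
    (h : ∀ i, ∀ k ≤ q, PowerSeries.coeff k (γ i) = PowerSeries.coeff k (δ i)) :
    ∀ k ≤ q, PowerSeries.coeff k (aeval γ f) = PowerSeries.coeff k (aeval δ f) := by
  induction f using MvPolynomial.induction_on with
  | C a =>
    intro k _
    simp only [MvPolynomial.algHom_C]
  | add p q hp hq =>
    intro k hk
    simp only [map_add, hp k hk, hq k hk]
  | mul_X p i hp =>
    intro k hk
    simp only [map_mul, aeval_X, PowerSeries.coeff_mul]
    refine Finset.sum_congr rfl fun x hx => ?_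
    have h1 := Finset.HasAntidiagonal.mem_antidiagonal.1 hx
    rw [hp x.1 (by omega), h i x.2 (by omega)]

theorem constr_TF [Finite J] (f : J → MvPolynomial σ K) {W : Set (Pt K σ)} (hW : Constr W)
    (i N : ℕ) : Constr (TF f W i N) := by
  unfold TF
  refine Constr.and (hW.preimage _ fun i => IsPF.coord _)
    (Constr.all fun j => Constr.allLt _ fun k _ => ?_)
  exact Constr.eqz (isPA_aeval (fun i z => ar z i) (fun i => isPA_ar i) (f j) k)

theorem jetF_eq (f : J → MvPolynomial σ K) (W : Set (Pt K σ)) (N : ℕ) :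
    TF f W N N = JetF f W N ∪ TF f W (N + 1) N := by
  ext z
  simp only [TF, JetF, Set.mem_ofPred_eq, Set.mem_union]
  constructor
  · rintro ⟨h1, h2⟩
    by_cases h3 : ∃ j, PowerSeries.coeff N (aeval (ar z) (f j)) ≠ 0
    · exact Or.inl ⟨h1, h2, h3⟩
    · push Not at h3
      refine Or.inr ⟨h1, fun j k hk => ?_⟩
      rcases Nat.lt_succ_iff_lt_or_eq.1 hk with h4 | rfl
      · exact h2 j k h4
      · exact h3 j
  · rintro (⟨h1, h2, -⟩ | ⟨h1, h2⟩)
    · exact ⟨h1, h2⟩
    · exact ⟨h1, fun j k hk => h2 j k (by omega)⟩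

theorem jetF_disj (f : J → MvPolynomial σ K) (W : Set (Pt K σ)) (N : ℕ) :
    Disjoint (JetF f W N) (TF f W (N + 1) N) := by
  rw [Set.disjoint_left]
  rintro z ⟨-, -, j, h1⟩ ⟨-, h2⟩
  exact h1 (h2 j N (by omega))

theorem constr_JetF [Finite J] (f : J → MvPolynomial σ K) {W : Set (Pt K σ)} (hW : Constr W)
    (N : ℕ) : Constr (JetF f W N) := by
  have h : JetF f W N = TF f W N N ∩ (TF f W (N + 1) N)ᶜ := by
    rw [jetF_eq]
    ext z
    have h1 : z ∈ JetF f W N → z ∉ TF f W (N + 1) N := fun h =>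
      Set.disjoint_left.1 (jetF_disj f W N) h
    simp only [Set.mem_inter_iff, Set.mem_union, Set.mem_compl_iff]
    tauto
  rw [h]
  exact (constr_TF f hW _ _).inter (constr_TF f hW _ _).compl

variable {R : Type} [CommRing R]

theorem chi_JetF [Fintype σ] [Finite J] (M : Meas K R) (f : J → MvPolynomial σ K)
    {W : Set (Pt K σ)} (hW : Constr W) (N : ℕ) :
    M.χ _ (JetF f W N) = M.χ _ (TF f W N N) - M.χ _ (TF f W (N + 1) N) := by
  rw [jetF_eq, M.add _ _ (constr_JetF f hW N) (constr_TF f hW _ _) (jetF_disj f W N)]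
  ring

/-! ### The last coefficient is free -/

/-- the last coefficients -/
def Fl (σ : Type) [Fintype σ] (N : ℕ) : Finset (σ × Fin (N + 1 + 1)) :=
  Finset.univ.filter fun p => (p.2 : ℕ) = N + 1

theorem card_Fl [Fintype σ] (N : ℕ) : (Fl σ N).card = Fintype.card σ := by
  have h : Fl σ N = (Finset.univ : Finset σ) ×ˢ {Fin.last (N + 1)} := by
    ext ⟨a, b⟩
    simp [Fl, Fin.ext_iff, eq_comm]
  rw [h, Finset.card_product, Finset.card_singleton, Finset.card_univ, mul_one]

/-- restriction -/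
def rsl {N : ℕ} (z : Pt K (σ × Fin (N + 1 + 1))) : Pt K (σ × Fin (N + 1)) :=
  fun p => z (p.1, ⟨p.2, by have := p.2.2; omega⟩)

/-- extension by zero -/
noncomputable def exl {N : ℕ} (z : Pt K (σ × Fin (N + 1))) : Pt K (σ × Fin (N + 1 + 1)) :=
  fun p => if h : (p.2 : ℕ) < N + 1 then z (p.1, ⟨p.2, h⟩) else 0

theorem tf_free [Fintype σ] (f : J → MvPolynomial σ K) (W : Set (Pt K σ)) (i N : ℕ)
    (hi : i ≤ N + 1) (z w : Pt K (σ × Fin (N + 1 + 1))) (h : ∀ p, p ∉ Fl σ N → w p = z p)
    (hz : z ∈ TF f W i (N + 1)) : w ∈ TF f W i (N + 1) := by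
  obtain ⟨h1, h2⟩ := hz
  have h4 : ∀ l, ∀ j ≤ N, PowerSeries.coeff j (aeval (ar w) (f l)) =
      PowerSeries.coeff j (aeval (ar z) (f l)) := by
    intro l
    refine coeff_congr (f l) N (ar w) (ar z) ?_
    intro i k hk
    rw [coeff_ar _ _ _ (by omega), coeff_ar _ _ _ (by omega)]
    exact h _ (by simp only [Fl, Finset.mem_filter, Finset.mem_univ, true_and]; omega)
  refine ⟨?_, fun l j hj => ?_⟩
  · have : (fun i => w (i, 0)) = fun i => z (i, 0) := by
      funext i
      exact h (i, 0) (by simp [Fl])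
    rw [this]
    exact h1
  · rw [h4 l j (by omega)]
    exact h2 l j hj

theorem tf_eq [Fintype σ] [Finite J] (M : Meas K R) (f : J → MvPolynomial σ K)
    {W : Set (Pt K σ)} (hW : Constr W) (i N : ℕ) (hi : i ≤ N + 1) :
    M.χ _ (TF f W i (N + 1) ∩ {z | ∀ p ∈ Fl σ N, z p = 0}) = M.χ _ (TF f W i N) := by
  refine M.iso _ _ ((constr_TF f hW i (N + 1)).inter (Constr.ballFinset _ fun p _ =>
    Constr.eqz (IsPF.coord _))) (constr_TF f hW i N) rsl exl
    (regularOn_poly (fun p => IsPF.coord _) _) (regularOn_poly (fun p => ?_) _) ?_ ?_ ?_ ?_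
  · unfold exl
    by_cases h : (p.2 : ℕ) < N + 1
    · simp only [dif_pos h]
      exact IsPF.coord _
    · simp only [dif_neg h]
      exact IsPF.zero
  · rintro z ⟨⟨h1, h2⟩, h3⟩
    have h4 : ∀ l, ∀ j ≤ N, PowerSeries.coeff j (aeval (ar (rsl z)) (f l)) =
        PowerSeries.coeff j (aeval (ar z) (f l)) := by
      intro l
      refine coeff_congr (f l) N (ar (rsl z)) (ar z) ?_
      intro i k hk
      rw [coeff_ar _ _ _ (by omega), coeff_ar _ _ _ (by omega)]
      rfl
    refine ⟨h1, fun l j hj => ?_⟩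
    rw [h4 l j (by omega)]
    exact h2 l j hj
  · rintro z ⟨h1, h2⟩
    have h4 : ∀ l, ∀ j ≤ N, PowerSeries.coeff j (aeval (ar (exl z)) (f l)) =
        PowerSeries.coeff j (aeval (ar z) (f l)) := by
      intro l
      refine coeff_congr (f l) N (ar (exl z)) (ar z) ?_
      intro i k hk
      rw [coeff_ar _ _ _ (by omega), coeff_ar _ _ _ (by omega)]
      simp only [exl]
      rw [dif_pos (by omega)]
    refine ⟨⟨h1, fun l j hj => ?_⟩, ?_⟩
    · rw [h4 l j (by omega)]
      exact h2 l j hj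
    · intro p hp
      simp only [Fl, Finset.mem_filter, Finset.mem_univ, true_and] at hp
      simp only [exl]
      rw [dif_neg (by omega)]
  · rintro z ⟨-, h3⟩
    funext p
    simp only [exl, rsl]
    split_ifs with h
    · rfl
    · exact (h3 p (by
        have := p.2.2
        simp only [Fl, Finset.mem_filter, Finset.mem_univ, true_and]; omega)).symm
  · rintro z -
    funext p
    simp only [exl, rsl]
    rw [dif_pos p.2.2]

theorem tf_two [Fintype σ] [Finite J] (M : Meas K R) (f : J → MvPolynomial σ K)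
    {W : Set (Pt K σ)} (hW : Constr W) (i N : ℕ) (hi : i ≤ N + 1) :
    M.χ _ (TF f W i (N + 1)) = M.χ _ (TF f W i N) * M.L ^ Fintype.card σ := by
  classical
  have e1 := Pool.Agent.W417.MT.Free.free_one M (Fl σ N) (fun _ => (0 : K)) (TF f W i (N + 1))
    (constr_TF f hW i (N + 1)) (fun z w h hz => tf_free f W i N hi z w h hz)
  simp only [map_zero] at e1
  rw [card_Fl, tf_eq M f hW i N hi] at e1
  exact e1

end basic

end Pool.Agent.X159.QI
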