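import Pool.Agent.X159.QI.Ext
import Pool.Agent.X159.TZ.Rel
import Pool.Agent.X159.TZ.Val
import Pool.Agent.X159.TZ.Desc

set_option autoImplicit false
set_option linter.unusedSectionVars false

/-! # Topological zeta functions of ideals: one more variable -/

namespace Pool.Agent.X159.QI

open Pool.Agent.W428.MOT Pool.Agent.TH192.MU Pool.Agent.X159.TZ
open Pool.Agent.TH192.MT (JetF)

section spec
variable {R : Type} [CommRing R] [IsDomain R] {u : Rˣ} {ε : R →+* ℂ}

/-- the value at `s` -/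
theorem specAt_ideal (h1 : ε (u : R) = 1) (hu : (u : R) ≠ 1) {Z Z' : PowerSeries R} {φ : R} {m : ℕ}
    (h : (1 - PowerSeries.X) * PowerSeries.rescale (u : R) Z' =
      (1 - PowerSeries.C (u : R) * PowerSeries.X) * Z +
        PowerSeries.C (((u : R) - 1) * φ) * PowerSeries.X ^ m) {s : ℕ} {c : ℂ}
    (hc : SpecAt u ε Z (s + 1) c) :
    SpecAt u ε Z' s ((s * c + ε φ) / ((s : ℂ) + 1)) := by
  obtain ⟨P, Q, x, y, hP, hQ, hx, hy, hxy⟩ := hc
  set v : R := ((u⁻¹ : Rˣ) : R) with hv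
  have hvu : v * (u : R) = 1 := Units.inv_mul u
  have hs : ((s : ℂ) + 1) ≠ 0 := by exact_mod_cast Nat.succ_ne_zero s
  have hval : (((u⁻¹) ^ s : Rˣ) : R) = v ^ s := by rw [Units.val_pow_eq_pow_val]
  have hval' : (((u⁻¹) ^ (s + 1) : Rˣ) : R) = v ^ (s + 1) := by rw [Units.val_pow_eq_pow_val]
  rw [hval'] at hQ hx
  -- rescaling back
  have h' : (1 - PowerSeries.C v * PowerSeries.X) * Z' =
      (1 - PowerSeries.X) * PowerSeries.rescale v Z + PowerSeries.C (((u : R) - 1) * φ) *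
          (PowerSeries.C v * PowerSeries.X) ^ m := by
    have h2 := congrArg (PowerSeries.rescale v) h
    simp only [map_mul, map_pow, map_sub, map_one, rescale_X', PowerSeries.rescale_rescale,
      map_add, rescale_C'] at h2
    rw [mul_comm (u : R) v, hvu, PowerSeries.rescale_one, RingHom.id_apply] at h2
    rw [h2]
    have h3 : PowerSeries.C (u : R) * (PowerSeries.C v * PowerSeries.X) =
        (PowerSeries.X : PowerSeries R) := by
      rw [← mul_assoc, ← map_mul, mul_comm (u : R) v, hvu, map_one, one_mul]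
    rw [h3]
    simp only [map_mul, map_sub, map_one]
  refine ⟨(1 - Polynomial.X) *
      P.comp (Polynomial.C v * Polynomial.X) + Polynomial.C (((u : R) - 1) * φ) *
      (Polynomial.C v * Polynomial.X) ^ m * Q.comp (Polynomial.C v * Polynomial.X),
    (1 - Polynomial.C v * Polynomial.X) * Q.comp (Polynomial.C v * Polynomial.X),
    gk u s * x + φ * (v ^ (s + 1)) ^ m * y, gk u (s + 1) * y, ?_, ?_, ?_, ?_, ?_⟩
  · have h4 := congrArg (PowerSeries.rescale v) hP
    rw [map_mul] at h4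
    simp only [Polynomial.coe_add, Polynomial.coe_mul, Polynomial.coe_sub, Polynomial.coe_pow,
      Polynomial.coe_one, Polynomial.coe_C, Polynomial.coe_X, coe_comp]
    linear_combination (PowerSeries.rescale v (Q : PowerSeries R)) * h' +
      (1 - PowerSeries.X) * h4
  · rw [hval]
    simp only [Polynomial.eval_mul, Polynomial.eval_sub, Polynomial.eval_one,
      Polynomial.eval_C, Polynomial.eval_X, Polynomial.eval_comp]
    rw [← pow_succ']
    exact mul_ne_zero (one_sub_ne h1 hu (Nat.succ_ne_zero s)) hQ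
  · rw [hval]
    simp only [Polynomial.eval_mul, Polynomial.eval_pow, Polynomial.eval_sub, Polynomial.eval_one,
      Polynomial.eval_C, Polynomial.eval_X, Polynomial.eval_comp, Polynomial.eval_add]
    rw [← pow_succ']
    have e1 := gk_mul u s
    have e2 := gk_mul u (s + 1)
    rw [← hv] at e1 e2
    rw [← e1, ← e2]
    linear_combination (((u : R) - 1) * gk u s * gk u (s + 1)) * hx
  · rw [map_mul, eps_gk h1]
    refine mul_ne_zero ?_ hy
    exact_mod_cast Nat.succ_ne_zero s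
  · have hεv : ε v = 1 := eps_inv h1
    simp only [map_add, map_mul, map_pow, eps_gk h1, hxy, hεv, one_pow]
    push_cast
    field_simp

end spec

section meas

/-- the Grothendieck measure and families of polynomials -/
theorem exists_measI : ∃ M : Meas ℂ (MK ℂ),
    M.L = ((Lu ℂ : (MK ℂ)ˣ) : MK ℂ) ∧ M.L * (((Lu ℂ)⁻¹ : (MK ℂ)ˣ) : MK ℂ) = 1 ∧
    ∀ {σ J : Type} [Fintype σ] (f : J → MvPolynomial σ ℂ),
      zetaId f = zI M (((Lu ℂ)⁻¹ : (MK ℂ)ˣ) : MK ℂ) f Set.univ := by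
  obtain ⟨M₀, hM₀⟩ := Pool.Agent.W417.MT.K0.main ℂ
  have hL := Pool.Agent.W63.MTFin.L_mul hM₀
  refine ⟨Pool.Agent.W63.MTFin.mapMeas M₀ (algebraMap (K0 ℂ) (MK ℂ)), ?_, hL, ?_⟩
  · set Y : MK ℂ := (((Lu ℂ)⁻¹ : (MK ℂ)ˣ) : MK ℂ) with hY
    have h2 : ((Lu ℂ : (MK ℂ)ˣ) : MK ℂ) * Y = 1 := Units.mul_inv _
    calc (Pool.Agent.W63.MTFin.mapMeas M₀ (algebraMap (K0 ℂ) (MK ℂ))).L
        = (Pool.Agent.W63.MTFin.mapMeas M₀ (algebraMap (K0 ℂ) (MK ℂ))).L *
            (((Lu ℂ : (MK ℂ)ˣ) : MK ℂ) * Y) := by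
          rw [h2, mul_one]
      _ = ((Pool.Agent.W63.MTFin.mapMeas M₀ (algebraMap (K0 ℂ) (MK ℂ))).L * Y) *
            ((Lu ℂ : (MK ℂ)ˣ) : MK ℂ) := by ring
      _ = _ := by rw [hL, one_mul]
  · intro σ J _ f
    ext N
    rw [zetaId, zI, PowerSeries.coeff_mk, PowerSeries.coeff_mk, zpow_neg, zpow_natCast, ← inv_pow,
      Units.val_pow_eq_pow_val, ← hM₀]
    rfl

end meas

section top
variable {R : Type} [CommRing R] [IsDomain R] {E : MK ℂ →+* R} {ε : R →+* ℂ}
variable {σ J : Type} [Fintype σ] [Finite J] [DecidableEq J]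

open Polynomial in
/-- `(κ + s Z(s + κ)) / (s + κ)`: the topological zeta function of the ideal generated by `I` and `κ` new
variables, if `Z` is the one of `I` -/
noncomputable def stI (κ : ℕ) (Z : RatFunc ℂ) : RatFunc ℂ :=
  (al (C (κ : ℂ)) + al X * sh κ Z) / al (X + C (κ : ℂ))

theorem wg_univ (g : MvPolynomial σ ℂ) :
    Wg (Set.univ : Set (Pt ℂ σ)) Set.univ g = Set.univ := by
  ext w
  simp [Wg]

theorem top_nf (hε : ε (E ((Lu ℂ : (MK ℂ)ˣ) : MK ℂ)) = 1)
    (hE : E ((Lu ℂ : (MK ℂ)ˣ) : MK ℂ) ≠ 1) (f : J → MvPolynomial σ ℂ) (j : J)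
    (a g : MvPolynomial σ ℂ) {Z : RatFunc ℂ} (hZ : IsTopZeta E ε (zetaId f) Z) :
    IsTopZeta E ε (zetaId (nf f j a g)) (stI 1 Z) := by
  obtain ⟨M, hML, hL, hz⟩ := exists_measI
  have hA : Constr {z : Pt ℂ (Fin 1) | z 0 ∈ (Set.univ : Set (AlgebraicClosure ℂ))} := by
    simpa using Constr.univ (K := ℂ) (ι := Fin 1)
  have hU : M.χ (Fin 1) {z : Pt ℂ (Fin 1) | z 0 ∈ (Set.univ : Set (AlgebraicClosure ℂ))} =
      M.L := by
    unfold Meas.L
    congr 1
  have h1 := congrArg (PowerSeries.map E) (rel_nf M _ hL f Constr.univ hA (Set.mem_univ 0) j a g)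
  have hw : ph M (((Lu ℂ)⁻¹ : (MK ℂ)ˣ) : MK ℂ) f Set.univ 0 =
      ((Lu ℂ : (MK ℂ)ˣ) : MK ℂ) ^ Fintype.card σ := by
    have h2 : (TF f Set.univ 0 0 : Set (Pt ℂ (σ × Fin (0 + 1)))) = Set.univ := by
      ext z
      simp only [TF, Set.mem_ofPred_eq, Set.mem_univ, true_and, iff_true]
      intro l k hk
      exact absurd hk (Nat.not_lt_zero _)
    rw [ph, h2, chi_univ, hML, Fintype.card_prod, Fintype.card_fin]
    simp
  rw [wg_univ, ← hz, ← hz, hw, hU, hML, sub_self, map_zero, zero_mul, add_zero] at h1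
  simp only [map_mul, map_pow, map_sub, map_one, map_rescale, PowerSeries.map_X, map_add,
    PowerSeries.map_C] at h1
  intro s hs
  obtain ⟨c, h2, h3⟩ := hZ (s + 1) (Nat.succ_pos s)
  have h4 := specAt_ideal (u := Units.map (E : MK ℂ →* R) (Lu ℂ)) (ε := ε) hε hE
    (φ := E ((Lu ℂ : (MK ℂ)ˣ) : MK ℂ) ^ Fintype.card σ) (m := 0) (Z' := PowerSeries.map E
      (zetaId (nf f j a g))) (Z := PowerSeries.map E (zetaId f)) (by
      simp only [map_mul, map_pow, map_sub, map_one, pow_zero, mul_one, Units.coe_map,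
        MonoidHom.coe_coe]
      linear_combination h1) h2
  rw [map_pow, hε, one_pow] at h4
  refine ⟨_, h4, ?_⟩
  have hs1 : ((s : ℂ) + 1) ≠ 0 := by exact_mod_cast Nat.succ_ne_zero s
  have h5 : Val ((s : ℂ) + 1) Z c := by
    unfold Val
    push_cast at h3
    exact h3
  have h6 := val_div (r := (Polynomial.X + Polynomial.C ((1 : ℕ) : ℂ))) (by simpa using hs1)
    (val_add (val_al (s : ℂ) (Polynomial.C ((1 : ℕ) : ℂ))) (val_mul
      (val_al (s : ℂ) Polynomial.X) (val_sh (a := ((1 : ℕ) : ℂ)) (by simpa using h5))))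
  have h7 : ((s : ℂ) * c + 1) / ((s : ℂ) + 1) = (Polynomial.eval (s : ℂ)
      (Polynomial.C ((1 : ℕ) : ℂ)) + Polynomial.eval (s : ℂ) Polynomial.X * c) /
      Polynomial.eval (s : ℂ) (Polynomial.X + Polynomial.C ((1 : ℕ) : ℂ)) := by
    simp only [Polynomial.eval_C, Polynomial.eval_X, Polynomial.eval_add, Nat.cast_one]
    ring
  rw [h7]
  exact h6

end top

/-! ### Descent -/

section desc
open Polynomial

/-- `P` for `(I, u)` implies `P` for `I` -/
def DescI (P : RatFunc ℂ → ℂ[X] → Prop) : Prop := ∀ (Z : RatFunc ℂ) (b : ℂ[X]),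
  (∀ s : ℕ, 0 < s → Reg (s : ℂ) Z) → P (stI 1 Z) (b.comp (X + 1)) → P Z b

theorem stI_mul (κ : ℕ) (Z : RatFunc ℂ) :
    al (X + C (κ : ℂ)) * stI κ Z = al (C (κ : ℂ)) + al X * sh κ Z := by
  unfold stI
  rw [mul_div_cancel₀ _ (al_ne (X_add_C_ne_zero _))]

theorem stI_zero (Z : RatFunc ℂ) : stI 0 Z = Z := by
  have h1 := stI_mul 0 Z
  simp only [Nat.cast_zero, map_zero, add_zero, zero_add, sh_zero] at h1
  exact mul_left_cancel₀ (al_ne X_ne_zero) h1

theorem stI_succ (κ : ℕ) (Z : RatFunc ℂ) : stI 1 (stI κ Z) = stI (κ + 1) Z := by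
  have h1 := stI_mul 1 (stI κ Z)
  have h2 := congrArg (sh 1) (stI_mul κ Z)
  have h3 := stI_mul (κ + 1) Z
  simp only [map_mul, map_add, sh_poly, sh_sh, add_comp, X_comp, C_comp, map_one] at h2
  have e1 : sh ((κ + 1 : ℕ) : ℂ) Z = sh ((κ : ℂ) + 1) Z := by push_cast; rfl
  rw [e1] at h3
  have hne : al ((X + C 1) * (X + C 1 + C (κ : ℂ))) ≠ 0 := by
    apply al_ne
    refine mul_ne_zero (X_add_C_ne_zero _) ?_
    have := Polynomial.X_add_C_ne_zero (1 + (κ : ℂ))
    rwa [add_assoc, ← C_add]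
  apply mul_left_cancel₀ hne
  simp only [map_mul, map_add, map_one, Nat.cast_succ, Nat.cast_zero, zero_add, C_1, C_add]
    at h1 h2 h3 ⊢
  set x := al X
  set k := al (C (κ : ℂ))
  set S := sh ((κ : ℂ) + 1) Z
  linear_combination (x + 1 + k) * h1 + x * h2 - (x + 1) * h3

theorem descI_roots : DescI PRoots := by
  intro Z b hZ h1 s₀ hs
  by_contra hb
  have h3 : Reg (s₀ - 1) (stI 1 Z) := by
    rw [reg_iff]
    intro h
    have h4 := h1 _ h
    rw [eval_comp, eval_add, eval_X, eval_one, sub_add_cancel] at h4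
    exact hb h4
  have h5 := reg_mul (reg_al (s₀ - 1) (X + C ((1 : ℕ) : ℂ))) h3
  rw [stI_mul] at h5
  have h6 := reg_sub h5 (reg_al (s₀ - 1) (C ((1 : ℕ) : ℂ)))
  rw [add_sub_cancel_left] at h6
  have hs0 : s₀ ≠ 1 := by
    rintro rfl
    have := hZ 1 Nat.one_pos
    rw [Nat.cast_one] at this
    exact reg_iff.1 this hs
  have h7 := reg_sh' (reg_div (by
    rw [eval_X]
    exact sub_ne_zero.2 hs0) h6)
  rw [Nat.cast_one, sub_add_cancel] at h7
  exact reg_iff.1 h7 hs

theorem descI_orders : DescI POrders := by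
  rintro Z b hZ ⟨p, hp⟩
  -- `(s - 1) b(s) Z(s)` is a polynomial
  have h1 := stI_mul 1 Z
  rw [Nat.cast_one] at h1
  have h2 : al (X * b.comp (X + 1)) * sh 1 Z = al ((X + C 1) * p - b.comp (X + 1)) := by
    simp only [map_mul al, map_sub al, map_add al, C_1, map_one al] at h1 hp ⊢
    linear_combination (al X + 1) * hp - (al (b.comp (X + 1))) * h1
  have h3 := congrArg (sh (-1)) h2
  rw [map_mul, sh_poly, sh_poly, sh_sh, add_neg_cancel, sh_zero] at h3
  set p' := ((X + C 1) * p - b.comp (X + 1)).comp (X + C (-1)) with hp'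
  have h4 : (X * b.comp (X + 1)).comp (X + C (-1)) = (X - C 1) * b := by
    have h5 : (b.comp (X + 1)).comp (X + C (-1)) = b := by
      rw [comp_assoc, add_comp, X_comp, one_comp, C_neg, C_1, neg_add_cancel_right, comp_X]
    rw [mul_comp, h5, X_comp, C_neg]
    ring
  rw [h4] at h3
  set W := al b * Z with hW
  have h5 : W * al (X - C (1 : ℂ)) = al p' := by
    rw [← h3, hW, map_mul al (X - C (1 : ℂ))]
    ring
  have h6 : W.denom ∣ (X - C (1 : ℂ) : ℂ[X]) := denom_dvd (X_sub_C_ne_zero _) h5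
  have h7 : W.denom.eval (1 : ℂ) ≠ 0 := by
    have := hZ 1 Nat.one_pos
    rw [Nat.cast_one] at this
    exact reg_iff.1 (reg_mul (reg_al _ _) this)
  have h8 : W.denom = 1 := by
    obtain ⟨r, hr⟩ := h6
    rcases (Polynomial.irreducible_X_sub_C (1 : ℂ)).isUnit_or_isUnit hr with hu | hu
    · exact (RatFunc.monic_denom W).eq_one_of_isUnit hu
    · exfalso
      have h9 := congrArg (Polynomial.eval (1 : ℂ)) hr
      rw [eval_mul, eval_sub, eval_X, eval_C, sub_self] at h9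
      have h10 : r.eval (1 : ℂ) ≠ 0 := by
        obtain ⟨a, ha, rfl⟩ := Polynomial.isUnit_iff.1 hu
        rw [eval_C]
        exact ha.ne_zero
      exact (mul_ne_zero h7 h10) h9.symm
  refine ⟨W.num, ?_⟩
  have h9 := num_denom W
  rw [h8, map_one, mul_one] at h9
  exact h9

end desc

end Pool.Agent.X159.QI
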