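import Pool.Agent.X159.QI.Red
import Pool.Agent.X159.QI.Top
import Pool.Agent.X159.QI.Defs

set_option autoImplicit false
set_option linter.unusedSectionVars false

/-! # Reduction of ideals to linear polynomials and binomials -/

namespace Pool.Agent.X159.QI

open MvPolynomial Pool.Agent.W428.MOT Pool.Agent.TH192.MU Pool.Agent.W574.SM Pool.Agent.X159.TZ

section
variable {R : Type} [CommRing R] [IsDomain R] {E : MK ℂ →+* R} {ε : R →+* ℂ}

theorem reg_of_topI {Zm : PowerSeries (MK ℂ)} {Z : RatFunc ℂ} (h : IsTopZeta E ε Zm Z) :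
    ∀ s : ℕ, 0 < s → Reg (s : ℂ) Z := by
  intro s hs
  obtain ⟨c, -, h2⟩ := h s hs
  exact reg_iff.2 (val_reg h2)

/-- **Transfer.** -/
theorem idP_step (hε : ε (E ((Lu ℂ : (MK ℂ)ˣ) : MK ℂ)) = 1)
    (hE : E ((Lu ℂ : (MK ℂ)ˣ) : MK ℂ) ≠ 1) {P : RatFunc ℂ → Polynomial ℂ → Prop} (hP : DescI P)
    {σ ι : Type} [Fintype σ] [Fintype ι] [DecidableEq ι] (f : ι → MvPolynomial σ ℂ)
    (hf : ∃ i, f i ≠ 0) (j : ι) (a g : MvPolynomial σ ℂ) (h : IdP E ε P (nf f j a g)) :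
    IdP E ε P f := by
  intro Z hZ b hb
  exact hP Z b (reg_of_topI hZ) (h _ (top_nf hε hE f j a g hZ) _ (fe_step j a g f hf hb))

/-- **Reduction.** -/
theorem ideal_red (hε : ε (E ((Lu ℂ : (MK ℂ)ˣ) : MK ℂ)) = 1)
    (hE : E ((Lu ℂ : (MK ℂ)ˣ) : MK ℂ) ≠ 1) {P : RatFunc ℂ → Polynomial ℂ → Prop} (hP : DescI P)
    (k : Type) [Field k] [Algebra k ℂ] :
    (∀ (σ ι : Type) [Fintype σ] [Fintype ι] (f : ι → MvPolynomial σ k),
      Ideal.span (Set.range f) ≠ ⊥ → Ideal.span (Set.range f) ≠ ⊤ →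
        IdP E ε P (fun i => map (algebraMap k ℂ) (f i))) ↔
    ∀ (σ ι : Type) [Fintype σ] [Fintype ι] (f : ι → MvPolynomial σ k),
      Ideal.span (Set.range f) ≠ ⊥ → Ideal.span (Set.range f) ≠ ⊤ →
        (∀ i, (f i).totalDegree ≤ 1 ∨ ∃ a b c : σ, f i = X c - X a * X b) →
          IdP E ε P (fun i => map (algebraMap k ℂ) (f i)) := by
  constructor
  · intro h σ ι _ _ f h1 h2 _
    exact h σ ι f h1 h2
  · intro h σ ι _ _ f
    refine principle (k := k) (fun σ ι _ _ f => Ideal.span (Set.range f) ≠ ⊥ →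
      Ideal.span (Set.range f) ≠ ⊤ → IdP E ε P (fun i => map (algebraMap k ℂ) (f i))) ?_ ?_ _ σ ι f
      le_rfl
    · intro σ ι _ _ _ f j a g hQ h1 h2
      have h3 := hQ (nf_ne_bot f j a g) (nf_ne_top f j a g h2)
      rw [map_nf] at h3
      refine idP_step hε hE hP _ ?_ j _ _ h3
      by_contra hcon
      push Not at hcon
      apply h1
      rw [Ideal.span_eq_bot]
      rintro _ ⟨i, rfl⟩
      exact (map_eq_zero_iff _ (map_injective _ (algebraMap k ℂ).injective)).1 (hcon i)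
    · intro σ ι _ _ f hq h1 h2
      exact h σ ι f h1 h2 hq

end

end Pool.Agent.X159.QI
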