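import Pool.Agent.W574.HS.Conv

set_option autoImplicit false
set_option linter.unusedSectionVars false

/-! # The functional equation of `∑ y_j f_j`, without the factor `s + 1`, is one of `(f_j)` -/

namespace Pool.Agent.X159.QI

open MvPolynomial Pool.Agent.W574.SM Pool.Agent.W574.HS

variable {σ ι : Type} [Fintype ι] [DecidableEq ι]

/-- **Mustata's theorem, one direction:** if `(s + 1) b(s)` satisfies a functional equation of
`∑ y_j f_j`, then `b` satisfies a functional equation of the ideal `(f_j)`. -/
theorem functionalEq_of_univ' [DecidableEq σ] (f : ι → MvPolynomial σ ℂ) (b : Polynomial ℂ)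
    (hb : Pool.Agent.H628R4.TP.IsBFunction (univ f) ((Polynomial.X + 1) * b)) :
    IsFunctionalEq f b := by
  classical
  obtain ⟨P, hP⟩ := hb
  choose E hE1 hE2 using fun m : ℕ => rep_weylS (σ := σ) (ι := ι) (P m).1 (P m).2 _ rep_id
  have hrep : Rep (fun (H : (ι →₀ ℕ) → MvPolynomial σ ℂ) α =>
      ∑ m ∈ P.support, evN α ((∑ j, X j) ^ m) • E m H α) :=
    rep_sum P.support _ fun m _ => rep_poly (hE1 m) _
  obtain ⟨κ, hκ, c, p, R, hR⟩ := hrep
  -- the key identity
  have key : ∀ s : ι →₀ ℕ, (((((∑ j, s j : ℕ) : ℂ) + 1) * b.eval ((∑ j, s j : ℕ) : ℂ)) *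
      ((∑ j, s j).factorial : ℂ)) •
      ∏ j, f j ^ s j = ∑ k, (evN s (p k) * (fall (c k) s : ℂ)) •
        (R k : Module.End ℂ (MvPolynomial σ ℂ)) (hat (univ f ^ (∑ j, s j + 1)) (sh s (c k))) := by
    intro s
    have h1 := congrArg (fun G => hat G s) (hP (∑ j, s j))
    rw [hat_C_mul, hat_univ_pow, if_pos rfl, smul_smul, Finsupp.sum, hat_sum] at h1
    rw [Polynomial.eval_mul, Polynomial.eval_add, Polynomial.eval_X, Polynomial.eval_one] at h1
    rw [h1, ← hR]
    refine Finset.sum_congr rfl fun m _ => ?_
    rw [hat_smul, hE2 m (univ f ^ (∑ j, s j + 1)) (hat (univ f ^ (∑ j, s j + 1))) rfl]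
    congr 1
    simp [evN]
  set cf : κ → ℂ := fun k => ∏ j, (((-c k j).toNat.factorial : ℕ) : ℂ) with hcf
  refine ⟨(Finset.univ.image c).filter fun d => ∑ j, d j = 1, fun d =>
    ∑ k ∈ Finset.univ.filter fun k => c k = d,
      tens (C (cf k) * p k) (R k), fun d hd => (Finset.mem_filter.1 hd).2,
      fun s => ?_⟩
  -- pass to a multi-index
  set s' : ι →₀ ℕ := Finsupp.equivFunOnFinite.symm s with hs'
  have hs's : ∀ j, s' j = s j := fun j => rfl
  have hk := key s'
  simp only [hs's] at hk
  have hfact : (((∑ j, s j) + 1).factorial : ℂ) ≠ 0 := by exact_mod_cast Nat.factorial_ne_zero _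
  -- the terms of the key identity
  have hterm : ∀ k, (evN s' (p k) * (fall (c k) s' : ℂ)) •
      (R k : Module.End ℂ (MvPolynomial σ ℂ)) (hat (univ f ^ (∑ j, s j + 1)) (sh s' (c k))) =
      if ∑ j, c k j = 1 then (((∑ j, s j) + 1).factorial : ℂ) •
        applyAt (tens (C (cf k) * p k) (R k)) s
          (C ((∏ j, (if c k j < 0 then (s j).choose (-c k j).toNat else 1) : ℕ) : ℂ) *
            ∏ j, f j ^ ((s j : ℤ) + c k j).toNat) else 0 := by
    intro k
    by_cases hpos : ∀ j, 0 ≤ (s j : ℤ) + c k j
    · have hsum : ((∑ j, sh s' (c k) j : ℕ) : ℤ) = ∑ j, s j + ∑ j, c k j := by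
        push_cast
        rw [← Finset.sum_add_distrib]
        refine Finset.sum_congr rfl fun j _ => ?_
        rw [sh_apply, hs's, Int.toNat_of_nonneg (hpos j)]
      rw [hat_univ_pow]
      have hiff : (∑ j, sh s' (c k) j = ∑ j, s j + 1) ↔ ∑ j, c k j = 1 := by
        constructor
        · intro h
          have : ((∑ j, sh s' (c k) j : ℕ) : ℤ) = ((∑ j, s j + 1 : ℕ) : ℤ) := by rw [h]
          rw [hsum] at this
          push_cast at this
          linarith
        · intro h
          rw [h] at hsum
          have : ((∑ j, sh s' (c k) j : ℕ) : ℤ) = ((∑ j, s j + 1 : ℕ) : ℤ) := by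
            rw [hsum]; push_cast; ring
          exact_mod_cast this
      by_cases h1 : ∑ j, c k j = 1
      · rw [if_pos (hiff.2 h1), if_pos h1, applyAt_tens, map_smul, smul_smul, smul_smul,
          ← C_mul', ← C_mul']
        have h2 : (fall (c k) s' : ℂ) = cf k *
            ((∏ j, (if c k j < 0 then (s j).choose (-c k j).toNat else 1) : ℕ) : ℂ) := by
          have : fall (c k) s' = (∏ j, (-c k j).toNat.factorial) *
              ∏ j, (if c k j < 0 then (s j).choose (-c k j).toNat else 1) := by
            rw [fall, ← Finset.prod_mul_distrib]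
            refine Finset.prod_congr rfl fun j _ => ?_
            split_ifs with h
            · rw [hs's, Nat.descFactorial_eq_factorial_mul_choose]
            · have h0 : (-c k j).toNat = 0 := by omega
              rw [h0]; simp
          rw [this, hcf]
          push_cast
          rfl
        have h3 : ∀ (a : ℂ) (g : MvPolynomial σ ℂ), (R k : Module.End ℂ (MvPolynomial σ ℂ))
            (C a * g) = C a * (R k : Module.End ℂ (MvPolynomial σ ℂ)) g := by
          intro a g; rw [C_mul', map_smul, C_mul']
        rw [h3, ← mul_assoc, ← C_mul]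
        congr 2
        rw [h2, evN, map_mul, eval_C]
        have h4 : eval (fun j => (s' j : ℂ)) (p k) = eval (fun j => (s j : ℂ)) (p k) := rfl
        rw [h4]
        ring
      · rw [if_neg (fun h => h1 (hiff.1 h)), if_neg h1, map_zero, smul_zero]
    · push Not at hpos
      obtain ⟨j, hj⟩ := hpos
      have h1 : fall (c k) s' = 0 := by
        refine Finset.prod_eq_zero (Finset.mem_univ j) ?_
        rw [hs's, Nat.descFactorial_eq_zero_iff_lt]
        omega
      have h2 : (∏ j, (if c k j < 0 then (s j).choose (-c k j).toNat else 1)) = 0 := by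
        refine Finset.prod_eq_zero (Finset.mem_univ j) ?_
        rw [if_pos (by omega), Nat.choose_eq_zero_iff]
        omega
      rw [h1, h2, applyAt_tens]
      simp
  have hl : ((((∑ j, s j : ℕ) : ℂ) + 1) * b.eval ((∑ j, s j : ℕ) : ℂ)) *
      ((∑ j, s j).factorial : ℂ) = (((∑ j, s j) + 1).factorial : ℂ) *
        b.eval ((∑ j, s j : ℕ) : ℂ) := by
    rw [Nat.factorial_succ]
    push_cast
    ring
  rw [Finset.sum_congr rfl fun k _ => hterm k, ← Finset.sum_filter, ← Finset.smul_sum,
    hl, mul_smul] at hk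
  have hk2 := smul_right_injective (MvPolynomial σ ℂ) hfact hk
  rw [C_mul', hk2]
  simp only [applyAt_sum]
  rw [← Finset.sum_fiberwise_of_maps_to (s := Finset.univ.filter fun k => ∑ j, c k j = 1)
    (t := (Finset.univ.image c).filter fun d => ∑ j, d j = 1) (g := c)]
  · refine Finset.sum_congr rfl fun d hd => ?_
    have h5 : ∀ k ∈ Finset.univ.filter (fun k => c k = d), ∑ j, c k j = 1 := by
      intro k hk
      rw [(Finset.mem_filter.1 hk).2]
      exact (Finset.mem_filter.1 hd).2
    have h6 : (Finset.univ.filter fun k => ∑ j, c k j = 1).filter (fun k => c k = d) =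
        Finset.univ.filter (fun k => c k = d) := by
      ext k
      simp only [Finset.mem_filter, Finset.mem_univ, true_and]
      exact ⟨fun h => h.2, fun h => ⟨h5 k (by simpa using h), h⟩⟩
    rw [h6]
    refine Finset.sum_congr rfl fun k hk => ?_
    have h7 : c k = d := (Finset.mem_filter.1 hk).2
    rw [h7]
  · intro k hk
    rw [Finset.mem_filter] at hk ⊢
    exact ⟨Finset.mem_image_of_mem _ (Finset.mem_univ k), hk.2⟩

end Pool.Agent.X159.QI
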