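import Pool.Agent.X159.QI.Step

set_option autoImplicit false
set_option linter.unusedSectionVars false

/-! # Every family of polynomials becomes one of polynomials of degree `≤ 1` and binomials -/

namespace Pool.Agent.X159.QI

open MvPolynomial

section red
variable {k : Type} [Field k]

/-- degree at most one, or `x_c - x_a x_b` -/
def Easy {σ : Type} (p : MvPolynomial σ k) : Prop :=
  p.totalDegree ≤ 1 ∨ ∃ a b c : σ, p = X c - X a * X b

/-- the degree of a monomial -/
noncomputable def dg {σ : Type} (m : σ →₀ ℕ) : ℕ := m.sum fun _ e => e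

/-- the weight of a polynomial -/
noncomputable def ww {σ : Type} (p : MvPolynomial σ k) : ℕ := ∑ m ∈ p.support, (dg m - 1)

theorem dg_add {σ : Type} (m m' : σ →₀ ℕ) : dg (m + m') = dg m + dg m' := by
  classical
  exact Finsupp.sum_add_index' (fun _ => rfl) fun _ _ _ => rfl

theorem dg_single {σ : Type} (a : σ) : dg (Finsupp.single a 1) = 1 := by
  unfold dg
  rw [Finsupp.sum_single_index rfl]

theorem dg_map {σ τ : Type} (e : σ → τ) (m : σ →₀ ℕ) : dg (m.mapDomain e) = dg m := by
  unfold dg
  exact Finsupp.sum_mapDomain_index (fun _ => rfl) fun _ _ _ => rfl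

theorem exists_split {σ : Type} (m : σ →₀ ℕ) (h : dg m ≠ 0) :
    ∃ (a : σ) (m' : σ →₀ ℕ), m = Finsupp.single a 1 + m' := by
  classical
  have h1 : m ≠ 0 := by
    rintro rfl
    exact h (by simp [dg])
  obtain ⟨a, ha⟩ : ∃ a, m a ≠ 0 := by
    by_contra hcon
    push Not at hcon
    exact h1 (Finsupp.ext hcon)
  refine ⟨a, m - Finsupp.single a 1, ?_⟩
  rw [add_tsub_cancel_of_le]
  rw [Finsupp.single_le_iff]
  omega

theorem ww_rename {σ τ : Type} (e : σ → τ) (he : Function.Injective e) (p : MvPolynomial σ k) :
    ww (rename e p) = ww p := by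
  classical
  unfold ww
  rw [support_rename_of_injective he, Finset.sum_image
    (fun x _ y _ h => Finsupp.mapDomain_injective he h)]
  refine Finset.sum_congr rfl fun m _ => ?_
  rw [dg_map]

theorem ww_add {σ : Type} (p q : MvPolynomial σ k) : ww (p + q) ≤ ww p + ww q := by
  classical
  unfold ww
  calc ∑ m ∈ (p + q).support, (dg m - 1) ≤ ∑ m ∈ p.support ∪ q.support, (dg m - 1) :=
        Finset.sum_le_sum_of_subset support_add
    _ ≤ _ := by
        have h := Finset.sum_union_inter (s₁ := p.support) (s₂ := q.support)
          (f := fun m => dg m - 1)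
        omega

theorem ww_monomial {σ : Type} (m : σ →₀ ℕ) (c : k) : ww (monomial m c) ≤ dg m - 1 := by
  classical
  unfold ww
  rw [support_monomial]
  split_ifs
  · simp
  · simp

theorem ww_sub {σ : Type} (p : MvPolynomial σ k) (m : σ →₀ ℕ) (hm : m ∈ p.support) :
    ww (p - monomial m (coeff m p)) + (dg m - 1) = ww p := by
  classical
  unfold ww
  have h1 : (p - monomial m (coeff m p)).support = p.support.erase m := by
    ext l
    rw [mem_support_iff, coeff_sub, coeff_monomial, Finset.mem_erase, mem_support_iff]
    split_ifs with h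
    · subst h
      simp
    · rw [sub_zero]
      constructor
      · exact fun h2 => ⟨fun h3 => h h3.symm, h2⟩
      · exact fun h2 => h2.2
  rw [h1, Finset.sum_erase_add _ _ hm]

/-- the binomials -/
def Bin {σ : Type} (p : MvPolynomial σ k) : Prop := ∃ a b c : σ, p = X c - X a * X b

open scoped Classical in
/-- the weight of a polynomial, `0` for binomials -/
noncomputable def w1 {σ : Type} (p : MvPolynomial σ k) : ℕ := if Bin p then 0 else ww p

theorem w1_le {σ : Type} (p : MvPolynomial σ k) : w1 p ≤ ww p := by
  unfold w1
  split_ifs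
  · exact Nat.zero_le _
  · exact le_rfl

theorem w1_rename {σ : Type} (p : MvPolynomial σ k) :
    w1 (rename some p : MvPolynomial (Option σ) k) ≤ w1 p := by
  by_cases h : Bin p
  · obtain ⟨a, b, c, rfl⟩ := h
    have h2 : Bin (rename some (X c - X a * X b) : MvPolynomial (Option σ) k) :=
      ⟨some a, some b, some c, by simp⟩
    rw [w1, if_pos h2]
    exact Nat.zero_le _
  · rw [w1, w1, if_neg h]
    split_ifs
    · exact Nat.zero_le _
    · rw [ww_rename _ (Option.some_injective _)]

theorem easy_of_w1 {σ : Type} {p : MvPolynomial σ k} (h : w1 p = 0) : Easy p := by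
  by_cases hb : Bin p
  · exact Or.inr hb
  · left
    rw [w1, if_neg hb, ww, Finset.sum_eq_zero_iff] at h
    rw [totalDegree, Finset.sup_le_iff]
    intro m hm
    have := h m hm
    show dg m ≤ 1
    omega

/-- one step -/
theorem exists_step {σ ι : Type} [Fintype ι] [DecidableEq ι] (f : ι → MvPolynomial σ k) (i : ι)
    (hi : w1 (f i) ≠ 0) : ∃ (a g : MvPolynomial σ k),
      ∑ o, w1 (nf f i a g o) < ∑ l, w1 (f l) := by
  classical
  have hb : ¬ Bin (f i) := by
    intro hb
    rw [w1, if_pos hb] at hi
    exact hi rfl
  have h1 : ww (f i) ≠ 0 := by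
    rwa [w1, if_neg hb] at hi
  obtain ⟨m, hm, hm1⟩ : ∃ m ∈ (f i).support, dg m - 1 ≠ 0 := by
    by_contra hcon
    push Not at hcon
    exact h1 (Finset.sum_eq_zero hcon)
  obtain ⟨α, m1, rfl⟩ := exists_split m (by omega)
  rw [dg_add, dg_single] at hm1
  obtain ⟨β, m2, rfl⟩ := exists_split m1 (by omega)
  rw [dg_add, dg_single] at hm1
  set c := coeff (Finsupp.single α 1 + (Finsupp.single β 1 + m2)) (f i) with hc
  refine ⟨monomial m2 c, X α * X β, ?_⟩
  rw [Fintype.sum_option]
  have hn : w1 (nf f i (monomial m2 c) (X α * X β) none) = 0 := by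
    have h2 : Bin (nf f i (monomial m2 c) (X α * X β) none) :=
      ⟨some α, some β, none, by simp [nf]⟩
    rw [w1, if_pos h2]
  rw [hn, zero_add]
  refine Finset.sum_lt_sum (fun l _ => ?_) ⟨i, Finset.mem_univ _, ?_⟩
  · by_cases hl : l = i
    · subst hl
      refine le_of_lt ?_
      have key : nf f l (monomial m2 c) (X α * X β) (some l) =
          rename some (f l - monomial (Finsupp.single α 1 + (Finsupp.single β 1 + m2)) c) +
            monomial (Finsupp.mapDomain some m2 + Finsupp.single none 1) c := by
        have h3 : (monomial (Finsupp.single α 1 + (Finsupp.single β 1 + m2)) c : MvPolynomial σ k)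
            = X α * X β * monomial m2 c := by
          rw [X, X, monomial_mul, monomial_mul, one_mul, one_mul, add_assoc]
        have h4 : (monomial (Finsupp.mapDomain some m2 + Finsupp.single none 1) c :
            MvPolynomial (Option σ) k) = rename some (monomial m2 c) * X none := by
          rw [rename_monomial, X, monomial_mul, mul_one]
        rw [h3, h4]
        simp only [nf, if_true, map_sub, map_mul, rename_X]
        ring
      rw [key]
      have h5 := w1_le (rename some (f l - monomial (Finsupp.single α 1 +
        (Finsupp.single β 1 + m2)) c) +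
            monomial (Finsupp.mapDomain some m2 + Finsupp.single none 1) c :
              MvPolynomial (Option σ) k)
      have h6 := ww_add (rename some (f l - monomial (Finsupp.single α 1 +
        (Finsupp.single β 1 + m2)) c) : MvPolynomial (Option σ) k)
            (monomial (Finsupp.mapDomain some m2 + Finsupp.single none 1) c)
      have h7 := ww_monomial (Finsupp.mapDomain some m2 + Finsupp.single none 1 :
        Option σ →₀ ℕ) c
      rw [ww_rename _ (Option.some_injective _)] at h6
      have h8 := ww_sub (f l) _ hm
      rw [← hc, dg_add, dg_single, dg_add, dg_single] at h8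
      rw [dg_add, dg_single, dg_map] at h7
      have h9 : w1 (f l) = ww (f l) := by rw [w1, if_neg hb]
      omega
    · have h2 : nf f i (monomial m2 c) (X α * X β) (some l) = rename some (f l) := by
        simp [nf, hl]
      rw [h2]
      exact w1_rename _
  · have key : nf f i (monomial m2 c) (X α * X β) (some i) =
        rename some (f i - monomial (Finsupp.single α 1 + (Finsupp.single β 1 + m2)) c) +
          monomial (Finsupp.mapDomain some m2 + Finsupp.single none 1) c := by
      have h3 : (monomial (Finsupp.single α 1 + (Finsupp.single β 1 + m2)) c : MvPolynomial σ k)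
          = X α * X β * monomial m2 c := by
        rw [X, X, monomial_mul, monomial_mul, one_mul, one_mul, add_assoc]
      have h4 : (monomial (Finsupp.mapDomain some m2 + Finsupp.single none 1) c :
          MvPolynomial (Option σ) k) = rename some (monomial m2 c) * X none := by
        rw [rename_monomial, X, monomial_mul, mul_one]
      rw [h3, h4]
      simp only [nf, if_true, map_sub, map_mul, rename_X]
      ring
    rw [key]
    have h5 := w1_le (rename some (f i - monomial (Finsupp.single α 1 +
      (Finsupp.single β 1 + m2)) c) +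
          monomial (Finsupp.mapDomain some m2 + Finsupp.single none 1) c :
            MvPolynomial (Option σ) k)
    have h6 := ww_add (rename some (f i - monomial (Finsupp.single α 1 +
      (Finsupp.single β 1 + m2)) c) : MvPolynomial (Option σ) k)
          (monomial (Finsupp.mapDomain some m2 + Finsupp.single none 1) c)
    have h7 := ww_monomial (Finsupp.mapDomain some m2 + Finsupp.single none 1 :
      Option σ →₀ ℕ) c
    rw [ww_rename _ (Option.some_injective _)] at h6
    have h8 := ww_sub (f i) _ hm
    rw [← hc, dg_add, dg_single, dg_add, dg_single] at h8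
    rw [dg_add, dg_single, dg_map] at h7
    have h9 : w1 (f i) = ww (f i) := by rw [w1, if_neg hb]
    omega

/-- **The reduction principle.** -/
theorem principle (Q : ∀ (σ ι : Type) [Fintype σ] [Fintype ι], (ι → MvPolynomial σ k) → Prop)
    (hstep : ∀ (σ ι : Type) [Fintype σ] [Fintype ι] [DecidableEq ι] (f : ι → MvPolynomial σ k)
      (j : ι) (a g : MvPolynomial σ k), Q _ _ (nf f j a g) → Q _ _ f)
    (heasy : ∀ (σ ι : Type) [Fintype σ] [Fintype ι] (f : ι → MvPolynomial σ k),
      (∀ i, Easy (f i)) → Q _ _ f) :
    ∀ (N : ℕ) (σ ι : Type) [Fintype σ] [Fintype ι] (f : ι → MvPolynomial σ k),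
      ∑ l, w1 (f l) ≤ N → Q _ _ f := by
  classical
  intro N
  induction N with
  | zero =>
    intro σ ι _ _ f h
    refine heasy _ _ f fun i => easy_of_w1 ?_
    exact Finset.sum_eq_zero_iff.1 (Nat.le_zero.1 h) i (Finset.mem_univ _)
  | succ N ih =>
    intro σ ι _ _ f h
    by_cases h0 : ∀ i, w1 (f i) = 0
    · exact heasy _ _ f fun i => easy_of_w1 (h0 i)
    · push Not at h0
      obtain ⟨i, hi⟩ := h0
      obtain ⟨a, g, h1⟩ := exists_step f i hi
      refine hstep _ _ f i a g (ih _ _ _ ?_)
      omega

/-! ### Nonzero proper ideals -/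

/-- `u ↦ g` -/
noncomputable def th {σ : Type} (g : MvPolynomial σ k) : MvPolynomial (Option σ) k →ₐ[k]
    MvPolynomial σ k :=
  aeval fun o => match o with
    | some i => X i
    | none => g

theorem th_some {σ : Type} (g p : MvPolynomial σ k) : th g (rename some p) = p := by
  unfold th
  rw [aeval_rename]
  exact aeval_X_left_apply p

theorem th_none {σ : Type} (g : MvPolynomial σ k) : th g (X none) = g := by
  unfold th
  rw [aeval_X]

theorem nf_ne_bot {σ ι : Type} [DecidableEq ι] (f : ι → MvPolynomial σ k) (j : ι)
    (a g : MvPolynomial σ k) : Ideal.span (Set.range (nf f j a g)) ≠ ⊥ := by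
  intro h
  rw [Ideal.span_eq_bot] at h
  have h1 : (X none - rename some g : MvPolynomial (Option σ) k) = 0 := h _ ⟨none, rfl⟩
  have h2 := congrArg (th (g + 1)) h1
  rw [map_sub, th_none, th_some, map_zero, add_sub_cancel_left] at h2
  exact one_ne_zero h2

theorem nf_ne_top {σ ι : Type} [DecidableEq ι] (f : ι → MvPolynomial σ k) (j : ι)
    (a g : MvPolynomial σ k) (hf : Ideal.span (Set.range f) ≠ ⊤) :
    Ideal.span (Set.range (nf f j a g)) ≠ ⊤ := by
  intro h
  apply hf
  rw [Ideal.eq_top_iff_one] at h ⊢
  have h1 : Ideal.span (Set.range (nf f j a g)) ≤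
      Ideal.comap (th g).toRingHom (Ideal.span (Set.range f)) := by
    rw [Ideal.span_le]
    rintro _ ⟨o, rfl⟩
    have h0 : th g (X none - rename some g) = 0 := by
      rw [map_sub, th_none, th_some, sub_self]
    rcases o with _ | i
    · show th g (X none - rename some g) ∈ Ideal.span (Set.range f)
      rw [h0]
      exact Ideal.zero_mem _
    · show th g (nf f j a g (some i)) ∈ Ideal.span (Set.range f)
      simp only [nf, map_add]
      refine Ideal.add_mem _ ?_ ?_
      · rw [th_some]
        exact Ideal.subset_span ⟨i, rfl⟩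
      · split_ifs
        · rw [map_mul, h0, mul_zero]
          exact Ideal.zero_mem _
        · rw [map_zero]
          exact Ideal.zero_mem _
  have h2 := h1 h
  rw [Ideal.mem_comap] at h2
  rwa [map_one] at h2

end red

end Pool.Agent.X159.QI
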