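import Pool.Agent.X159.QI.Must
import Pool.Agent.W366.SI.I1
import Pool.Agent.W206.CU.Pole
import Pool.Agent.Y229.PG.Main

set_option autoImplicit false
set_option linter.unusedSectionVars false

/-! # Ideals: one more variable `u`, the generator `u - g`, and `f_j + a (u - g)` -/

namespace Pool.Agent.X159.QI

open MvPolynomial Pool.Agent.W574.SM Pool.Agent.W574.HS Pool.Agent.H628R4.TP

section defs
variable {k : Type} [CommRing k] {σ ι : Type} [DecidableEq ι]

/-- The generators `f_i`, with `f_j + a (u - g)` in the place of `f_j`, and `u - g`, where `u` is a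
new variable. -/
noncomputable def nf (f : ι → MvPolynomial σ k) (j : ι) (a g : MvPolynomial σ k) :
    Option ι → MvPolynomial (Option σ) k
  | some i => rename some (f i) + if i = j then rename some a * (X none - rename some g) else 0
  | none => X none - rename some g

theorem map_nf {K : Type} [CommRing K] (e : k →+* K) (f : ι → MvPolynomial σ k) (j : ι)
    (a g : MvPolynomial σ k) :
    (fun o => map e (nf f j a g o)) = nf (fun i => map e (f i)) j (map e a) (map e g) := by
  funext o
  rcases o with _ | i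
  · simp only [nf, map_sub, map_X, map_rename]
  · simp only [nf, map_add, map_rename]
    split_ifs with h
    · simp only [map_mul, map_sub, map_X, map_rename]
    · simp only [map_zero]

end defs

section eqn
variable {σ ι : Type} [Fintype ι] [DecidableEq ι]

/-- `∑ y_i f_i + y u` -/
noncomputable def bs (f : ι → MvPolynomial σ ℂ) : MvPolynomial (Option ι ⊕ Option σ) ℂ :=
  rename (Sum.map some some) (univ f) + X (Sum.inl none) * X (Sum.inr none)

theorem univ_deg (f : ι → MvPolynomial σ ℂ) (hf : ∃ i, f i ≠ 0) : (univ f).totalDegree ≠ 0 := by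
  classical
  intro h0
  obtain ⟨i, hi⟩ := hf
  have h1 := congrArg (pderiv (Sum.inl i)) (totalDegree_eq_zero_iff_eq_C.1 h0)
  rw [pderiv_C, univ, map_sum, Finset.sum_eq_single i] at h1
  · rw [Derivation.leibniz, pderiv_X_self, smul_eq_mul, smul_eq_mul, mul_one,
      Pool.Agent.W206.CU.pderiv_rename_of_not _ _ (fun x h => by cases h), mul_zero, zero_add] at h1
    exact hi (rename_injective _ Sum.inr_injective (by rw [h1, map_zero]))
  · intro l _ hl
    rw [Derivation.leibniz, Pool.Agent.W206.CU.pderiv_rename_of_not _ _ (fun x h => by cases h),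
      pderiv_X_of_ne (fun h => hl (Sum.inl_injective h)), smul_zero, smul_zero, add_zero]
  · intro h
    exact absurd (Finset.mem_univ _) h

/-- the numbering of the variables -/
noncomputable def e2 {σ ι : Type} {N : ℕ} (e1 : ι ⊕ σ ≃ Fin N) :
    Option ι ⊕ Option σ ≃ Fin (N + (1 + 1)) :=
  (Equiv.sumCongr (Equiv.optionEquivSumPUnit.{0} ι) (Equiv.optionEquivSumPUnit.{0} σ)).trans
    ((Equiv.sumSumSumComm ι PUnit σ PUnit).trans
      ((Equiv.sumCongr e1 ((Equiv.sumCongr (Equiv.ofUnique PUnit (Fin 1))
        (Equiv.ofUnique PUnit (Fin 1))).trans finSumFinEquiv)).trans finSumFinEquiv))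

theorem bs_eq [Finite σ] {N : ℕ} (e1 : ι ⊕ σ ≃ Fin N) (f : ι → MvPolynomial σ ℂ) :
    rename (e2 e1) (bs f) = Pool.Agent.Y229.RE.stab (rename e1 (univ f)) 1 := by
  unfold bs Pool.Agent.Y229.RE.stab
  rw [map_add, map_mul, rename_X, rename_X, rename_rename, rename_rename, Fin.sum_univ_one]
  congr 1
  · congr 2
    funext v
    rcases v with v | v <;> rfl

theorem bs_b [Finite σ] (f : ι → MvPolynomial σ ℂ) (hf : ∃ i, f i ≠ 0) {b : Polynomial ℂ}
    (hb : IsBFunction (univ f) ((Polynomial.X + 1) * b)) :
    IsBFunction (bs f) ((Polynomial.X + 1) * b.comp (Polynomial.X + 1)) := by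
  obtain ⟨N, ⟨e1⟩⟩ := Finite.exists_equiv_fin (ι ⊕ σ)
  have h1 := Pool.Agent.W206.CU.isBFunction_iso (renameEquiv ℂ e1) hb
  have h2 : (rename e1 (univ f)).totalDegree ≠ 0 := by
    intro h0
    apply univ_deg f hf
    have h3 := totalDegree_eq_zero_iff_eq_C.1 h0
    have h4 := congrArg (rename e1.symm) h3
    rw [rename_rename, rename_C, Equiv.symm_comp_self, rename_id_apply] at h4
    rw [h4, totalDegree_C]
  rw [renameEquiv_apply] at h1
  have h3 := (Pool.Agent.Y229.PG.becomes_global h2 h1 (k := 1)
    (G := Pool.Agent.Y229.RE.stab (rename e1 (univ f)) 1) ⟨AlgEquiv.refl, rfl⟩).2 _ rfl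
  rw [← bs_eq] at h3
  have h4 := Pool.Agent.W206.CU.isBFunction_iso (renameEquiv ℂ (e2 e1).symm) h3
  rw [renameEquiv_apply, rename_rename, Equiv.symm_comp_self, rename_id_apply] at h4
  rwa [Nat.cast_one, map_one] at h4

variable (j : ι) (a g : MvPolynomial σ ℂ)

/-- the images of the variables -/
noncomputable def vv (s : ℂ) (j : ι) (a g : MvPolynomial σ ℂ) :
    Option ι ⊕ Option σ → MvPolynomial (Option ι ⊕ Option σ) ℂ
  | Sum.inl (some i) => X (Sum.inl (some i))
  | Sum.inl none => X (Sum.inl none) + C s * (X (Sum.inl (some j)) * rename (Sum.inr ∘ some) a)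
  | Sum.inr (some x) => X (Sum.inr (some x))
  | Sum.inr none => X (Sum.inr none) - C s * rename (Sum.inr ∘ some) g

theorem aeval_vv (s : ℂ) (p : MvPolynomial σ ℂ) :
    aeval (vv s j a g) (rename (Sum.inr ∘ some) p : MvPolynomial (Option ι ⊕ Option σ) ℂ) =
      rename (Sum.inr ∘ some) p := by
  rw [aeval_rename, rename_eq_aeval]
  rfl

theorem aeval_vv2 (s : ℂ) (p : MvPolynomial (ι ⊕ σ) ℂ) :
    aeval (vv s j a g) (rename (Sum.map some some) p : MvPolynomial (Option ι ⊕ Option σ) ℂ) =
      rename (Sum.map some some) p := by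
  rw [aeval_rename, rename_eq_aeval]
  congr 2
  funext v
  rcases v with v | v <;> rfl

theorem vv_comp (s : ℂ) : (aeval (vv s j a g)).comp (aeval (vv (-s) j a g)) =
    AlgHom.id ℂ (MvPolynomial (Option ι ⊕ Option σ) ℂ) := by
  apply MvPolynomial.algHom_ext
  intro v
  rw [AlgHom.comp_apply, aeval_X, AlgHom.id_apply]
  rcases v with (_ | i) | (_ | x)
  · simp only [vv, map_add, map_mul, aeval_X, aeval_vv, map_neg, algHom_C, algebraMap_eq]
    ring
  · simp only [vv, aeval_X]
  · simp only [vv, map_sub, map_mul, aeval_X, aeval_vv, map_neg, algHom_C, algebraMap_eq]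
    ring
  · simp only [vv, aeval_X]

/-- the automorphism -/
noncomputable def au : MvPolynomial (Option ι ⊕ Option σ) ℂ ≃ₐ[ℂ]
    MvPolynomial (Option ι ⊕ Option σ) ℂ :=
  AlgEquiv.ofAlgHom (aeval (vv 1 j a g)) (aeval (vv (-1) j a g)) (vv_comp j a g 1) (by
    have := vv_comp j a g (-1)
    rwa [neg_neg] at this)

theorem au_bs (f : ι → MvPolynomial σ ℂ) : au j a g (bs f) = univ (nf f j a g) := by
  show aeval (vv 1 j a g) (bs f) = _
  unfold bs univ
  rw [map_add, aeval_vv2, map_mul, aeval_X, aeval_X, Fintype.sum_option]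
  have h1 : ∑ i : ι, (X (Sum.inl (some i)) : MvPolynomial (Option ι ⊕ Option σ) ℂ) *
      rename Sum.inr (nf f j a g (some i)) =
      rename (Sum.map some some) (∑ i : ι, X (Sum.inl i) * rename Sum.inr (f i)) +
        X (Sum.inl (some j)) * (rename (Sum.inr ∘ some) a *
          (X (Sum.inr none) - rename (Sum.inr ∘ some) g)) := by
    have h2 : ∀ i : ι, (X (Sum.inl (some i)) : MvPolynomial (Option ι ⊕ Option σ) ℂ) *
        rename Sum.inr (nf f j a g (some i)) = rename (Sum.map some some)
          (X (Sum.inl i) * rename Sum.inr (f i)) + if i = j then X (Sum.inl (some j)) *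
            (rename (Sum.inr ∘ some) a * (X (Sum.inr none) - rename (Sum.inr ∘ some) g)) else 0 := by
      intro i
      rw [map_mul, rename_X, rename_rename]
      simp only [nf, map_add, rename_rename, mul_add, Sum.map_inl]
      congr 1
      split_ifs with h
      · subst h
        rw [map_mul, map_sub, rename_rename, rename_rename, rename_X]
      · rw [map_zero, mul_zero]
    rw [Finset.sum_congr rfl fun i _ => h2 i, Finset.sum_add_distrib, ← map_sum,
      Finset.sum_ite_eq' Finset.univ j, if_pos (Finset.mem_univ _)]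
  rw [h1]
  simp only [vv, nf, map_sub, rename_X, rename_rename, C_1]
  ring

/-- **The functional equation of the new family.** -/
theorem fe_step [Finite σ] (f : ι → MvPolynomial σ ℂ) (hf : ∃ i, f i ≠ 0) {b : Polynomial ℂ}
    (hb : IsFunctionalEq f b) :
    IsFunctionalEq (nf f j a g) (b.comp (Polynomial.X + 1)) := by
  classical
  have h1 := bs_b f hf (Pool.Agent.W366.SI.taskI1' f b hb)
  have h2 := Pool.Agent.W206.CU.isBFunction_iso (au j a g) h1
  rw [au_bs] at h2
  exact functionalEq_of_univ' _ _ h2

end eqn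

end Pool.Agent.X159.QI
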